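import Pool.Agent.J4H8.JP.Abs3
import Pool.Agent.J4H1.LB.Stm

set_option autoImplicit false

/-!
# Project LB, piece (ABS): `S_absA` (after J4H8/JP/Abs3, Abs4, Abs5, Abs6 of helper8, with `a + η ≤ x`)
-/

namespace Pool.Agent.J4H30.LB

open Complex Filter Topology Metric MeasureTheory
open Pool.Agent.J4H8.JP Pool.Agent.J4H1.LB

/-- stage 4: the saddle point -/
theorem stage4A {a η ε0 μ l x : ℝ} {N : ℕ} (ha : 0 < a) (hη : 0 < η)
    (hx1 : a + η ≤ x) (hx2 : x ≤ 1 / 2) (hε : 0 < ε0) (hε1 : 16 * ε0 ≤ η) (hμ : 0 < μ)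
    (hμ1 : μ ≤ a * ε0) (hl : 4 ≤ a * l) (hN1 : a * l ≤ N + 1) (hN2 : (N : ℝ) ≤ a * l)
    {φ : ℂ → ℂ} (h1 : ∀ v ∈ Box ε0, HasDerivAt φ (deriv φ v) v)
    (h1b : ∀ v ∈ Box ε0, ‖deriv φ v‖ ≤ μ * l)
    (h2 : ∀ v ∈ Box ε0, HasDerivAt (deriv φ) (deriv (deriv φ) v) v)
    (h3 : ∀ v ∈ Box ε0, ‖deriv (deriv φ) v‖ ≤ μ * l) :
    ∃ u : ℂ, |u.re - N / l| ≤ a * ε0 ∧ |u.im| ≤ a * ε0 ∧ (x - u) ∈ Box ε0 ∧
      u * (l + deriv φ (x - u)) = N := by
  have hl0 : 0 < l := (mul_pos_iff_of_pos_left ha).1 (by linarith)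
  have ha2 : a < 1 / 2 := by linarith
  have hεs : 32 * ε0 ≤ 1 := by linarith
  have haε : a * ε0 ≤ ε0 / 2 := by
    have h4 := mul_le_mul_of_nonneg_right ha2.le hε.le
    linarith
  have haε0 : 0 < a * ε0 := by positivity
  have hNl : (N : ℝ) / l ≤ a := by rw [div_le_iff₀ hl0]; exact hN2
  have hNl' : a - a / 4 ≤ (N : ℝ) / l := by
    rw [le_div_iff₀ hl0]
    nlinarith
  have hNl0 : (0 : ℝ) ≤ (N : ℝ) / l := by positivity
  have hbox : ∀ u ∈ closedBall ((N / l : ℝ) : ℂ) (a * ε0), |u.re - N / l| ≤ a * ε0 ∧ |u.im| ≤ a * ε0 ∧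
      ((x : ℂ) - u) ∈ Box ε0 := by
    intro u hu
    rw [mem_closedBall, dist_eq_norm] at hu
    have h4 : |u.re - N / l| ≤ a * ε0 := by
      have := (abs_re_le_norm (u - ((N / l : ℝ) : ℂ))).trans hu
      simpa using this
    have h5 : |u.im| ≤ a * ε0 := by
      have := (abs_im_le_norm (u - ((N / l : ℝ) : ℂ))).trans hu
      rw [sub_im, ofReal_im, sub_zero] at this
      exact this
    refine ⟨h4, h5, ⟨⟨?_, ?_⟩, ⟨?_, ?_⟩⟩⟩
    · have := (abs_le.1 h4).2
      simp only [sub_re, ofReal_re]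
      linarith
    · have := (abs_le.1 h4).1
      simp only [sub_re, ofReal_re]
      linarith
    · have := (abs_le.1 h5).2
      simp only [sub_im, ofReal_im]
      linarith
    · have := (abs_le.1 h5).1
      simp only [sub_im, ofReal_im]
      linarith
  have hμ2 : μ ≤ 1 / 4 := by linarith
  have hden : ∀ v ∈ Box ε0, l / 2 ≤ ‖(l : ℂ) + deriv φ v‖ := by
    intro v hv
    have h4 := h1b v hv
    have h5 : ‖(l : ℂ)‖ - ‖deriv φ v‖ ≤ ‖(l : ℂ) + deriv φ v‖ := by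
      have := norm_sub_norm_le (l : ℂ) (-deriv φ v)
      rw [norm_neg, sub_neg_eq_add] at this
      exact this
    rw [norm_real, Real.norm_of_nonneg hl0.le] at h5
    nlinarith
  have hden0 : ∀ v ∈ Box ε0, (l : ℂ) + deriv φ v ≠ 0 := by
    intro v hv h4
    have := hden v hv
    rw [h4, norm_zero] at this
    linarith
  have hlC : (l : ℂ) ≠ 0 := by exact_mod_cast hl0.ne'
  obtain ⟨u, hu, hfix⟩ := fixed_ball (Ψ := fun u => (N : ℂ) / (l + deriv φ (x - u)))
    (c := ((N / l : ℝ) : ℂ)) (r := a * ε0) haε0.le (by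
      intro u hu
      obtain ⟨-, -, hb⟩ := hbox u hu
      rw [mem_closedBall, dist_eq_norm]
      have e : (N : ℂ) / (l + deriv φ (x - u)) - ((N / l : ℝ) : ℂ) =
          -(((N / l : ℝ) : ℂ) * deriv φ (x - u)) / (l + deriv φ (x - u)) := by
        have := hden0 _ hb
        push_cast
        field_simp
        ring
      show ‖(N : ℂ) / (l + deriv φ (x - u)) - ((N / l : ℝ) : ℂ)‖ ≤ _
      rw [e, norm_div, norm_neg, norm_mul, norm_real, Real.norm_of_nonneg hNl0]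
      rw [div_le_iff₀ (by have := hden _ hb; linarith)]
      calc (N : ℝ) / l * ‖deriv φ (x - u)‖ ≤ a * (μ * l) := by
            gcongr
            exact h1b _ hb
        _ ≤ (1 / 2) * ((a * ε0) * l) := by gcongr
        _ = (a * ε0) * (l / 2) := by ring
        _ ≤ _ := by
            gcongr
            exact hden _ hb) (by
      intro u hu v hv
      obtain ⟨-, -, hb⟩ := hbox u hu
      obtain ⟨-, -, hb'⟩ := hbox v hv
      have e : (N : ℂ) / (l + deriv φ (x - u)) - (N : ℂ) / (l + deriv φ (x - v)) =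
          N * (deriv φ (x - v) - deriv φ (x - u)) /
            ((l + deriv φ (x - u)) * (l + deriv φ (x - v))) := by
        have := hden0 _ hb
        have := hden0 _ hb'
        field_simp
        ring
      show ‖(N : ℂ) / (l + deriv φ (x - u)) - (N : ℂ) / (l + deriv φ (x - v))‖ ≤ _
      have h4 := (taylor_two (by positivity) h1 h2 h3 hb' hb).1
      have h5 : (x : ℂ) - v - (x - u) = u - v := by ring
      rw [h5] at h4
      have hd1 := hden _ hb
      have hd2 := hden _ hb'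
      rw [e, norm_div, norm_mul, norm_mul, Complex.norm_natCast]
      rw [div_le_iff₀ (by
        apply mul_pos <;> linarith)]
      calc (N : ℝ) * ‖deriv φ (x - v) - deriv φ (x - u)‖ ≤ (a * l) * (μ * l * ‖u - v‖) := by gcongr
        _ = (a * μ) * (l ^ 2 * ‖u - v‖) := by ring
        _ ≤ (1 / 8) * (l ^ 2 * ‖u - v‖) := by
            gcongr
            nlinarith
        _ = 1 / 2 * ‖u - v‖ * ((l / 2) * (l / 2)) := by ring
        _ ≤ 1 / 2 * ‖u - v‖ * (‖(l : ℂ) + deriv φ (x - u)‖ * ‖(l : ℂ) + deriv φ (x - v)‖) := by gcongr)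
  obtain ⟨b1, b2, b3⟩ := hbox u hu
  refine ⟨u, b1, b2, b3, ?_⟩
  have h6 : (N : ℂ) / (l + deriv φ (x - u)) = u := hfix
  have := hden0 _ b3
  rw [div_eq_iff this] at h6
  exact h6.symm

/-- stage 5: the Taylor part is small -/
theorem stage5A {a η ε0 δ l x : ℝ} {m : ℕ} (ha : 0 < a) (hη : 0 < η)
    (hx1 : a + η ≤ x) (hx2 : x ≤ 1 / 2) (hε : 0 < ε0) (hε1 : 16 * ε0 ≤ η) (hε2 : 14 * ε0 ≤ a)
    (hδ1 : δ + 14 * ε0 ≤ η ^ 2 / 4) (hl : 4 ≤ a * l) (hm : ((m + 1 : ℕ) : ℝ) ≤ a * l + 1)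
    (hls : Real.exp (1 / (2 * a)) / η ≤ Real.exp (l * (η ^ 2 / 4))) {f : ℂ → ℂ} (hf : Differentiable ℂ f)
    (A2 : ∀ w : ℂ, ‖w‖ ≤ 8 → ‖f w‖ ≤ Real.exp (l * (max |w.re| a + δ)))
    {x0 h : ℂ} (hx0 : x0 + h = x) (hre : x0.re = 7 * ε0) (him : |x0.im| ≤ ε0) :
    ‖∑ k ∈ Finset.range (m + 1), h ^ k / (k.factorial : ℂ) * iteratedDeriv k f x0‖ ≤
      Real.exp (l * (x - η ^ 2 / 2)) := by
  have hl0 : 0 < l := (mul_pos_iff_of_pos_left ha).1 (by linarith)
  have ha2 : a < 1 / 2 := by linarith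
  set r : ℝ := a - 7 * ε0 with hr
  have hr1 : a / 2 ≤ r := by rw [hr]; linarith
  have hr0 : 0 < r := by linarith
  have hhre : h.re = x - 7 * ε0 := by
    have := congrArg Complex.re hx0
    rw [add_re, ofReal_re, hre] at this
    linarith
  have hhim : h.im = -x0.im := by
    have := congrArg Complex.im hx0
    rw [add_im, ofReal_im] at this
    linarith
  have hh1 : ‖h‖ ≤ x - 6 * ε0 := by
    have h1 := Complex.norm_le_abs_re_add_abs_im h
    rw [hhre, hhim, abs_neg, abs_of_nonneg (by linarith)] at h1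
    linarith
  have hh2 : x - 7 * ε0 ≤ ‖h‖ := by
    rw [← hhre]
    exact Complex.re_le_norm h
  have hrh : r < ‖h‖ := by linarith
  have hM : ∀ w ∈ sphere x0 r, ‖f w‖ ≤ Real.exp (l * (a + δ)) := by
    intro w hw
    rw [mem_sphere, dist_eq_norm] at hw
    have h1 := abs_le.1 (abs_re_le_norm (w - x0))
    rw [hw, sub_re, hre] at h1
    have h2 : ‖x0‖ ≤ 8 * ε0 := by
      have h3 := Complex.norm_le_abs_re_add_abs_im x0
      rw [hre, abs_of_pos (by positivity)] at h3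
      linarith
    have h3 : ‖w‖ ≤ 8 := by
      calc ‖w‖ = ‖x0 + (w - x0)‖ := by congr 1; ring
        _ ≤ ‖x0‖ + ‖w - x0‖ := norm_add_le _ _
        _ ≤ 8 := by rw [hw]; linarith
    have h4 : |w.re| ≤ a := by
      rw [abs_le]; constructor <;> linarith [h1.1, h1.2]
    have h5 := A2 w h3
    rwa [max_eq_right h4] at h5
  refine (taylor_part_le hf hr0 hrh hM m).trans ?_
  set D : ℝ := ‖h‖ - r with hD
  have hD2 : η ≤ D := by rw [hD, hr]; linarith
  have hD0 : 0 < D := by linarith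
  have hx0' : 0 < x := by linarith
  set E : ℝ := (x / a - 1) - a * (x / a - 1) ^ 2 + 14 * ε0 / a with hE
  have hlog : Real.log (x / a) ≤ (x / a - 1) - a * (x / a - 1) ^ 2 := by
    have h1 := log_upper (u := x / a) (U1 := 1 / (2 * a)) (by positivity) (by
      rw [div_le_div_iff₀ ha (by positivity)]
      nlinarith) (by
      rw [le_div_iff₀ (by positivity)]
      linarith)
    have e : (x / a - 1) ^ 2 / (2 * (1 / (2 * a))) = a * (x / a - 1) ^ 2 := by
      field_simp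
    rw [e] at h1
    exact h1
  have e1 : ‖h‖ / r ≤ Real.exp E := by
    have h1 : ‖h‖ / r ≤ x / a * (1 + 14 * ε0 / a) := by
      rw [div_le_iff₀ hr0]
      have h2 : a ≤ (1 + 14 * ε0 / a) * r := by
        have e2 : (1 + 14 * ε0 / a) * r = a + 7 * ε0 * (a - 14 * ε0) / a := by
          rw [hr]; field_simp; ring
        rw [e2]
        have : 0 ≤ 7 * ε0 * (a - 14 * ε0) / a := by
          apply div_nonneg _ ha.le
          apply mul_nonneg (by linarith)
          linarith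
        linarith
      calc ‖h‖ ≤ x := by linarith
        _ = x / a * a := by field_simp
        _ ≤ x / a * ((1 + 14 * ε0 / a) * r) := by gcongr
        _ = _ := by ring
    refine h1.trans ?_
    rw [hE, Real.exp_add]
    have h3 : x / a ≤ Real.exp ((x / a - 1) - a * (x / a - 1) ^ 2) := by
      calc x / a = Real.exp (Real.log (x / a)) := (Real.exp_log (by positivity)).symm
        _ ≤ _ := Real.exp_le_exp.2 hlog
    have h4 : 1 + 14 * ε0 / a ≤ Real.exp (14 * ε0 / a) := by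
      have := Real.add_one_le_exp (14 * ε0 / a)
      linarith
    exact mul_le_mul h3 h4 (by positivity) (Real.exp_pos _).le
  have hE0 : 0 ≤ E := by
    have h1 : 1 < ‖h‖ / r := by rw [one_lt_div hr0]; exact hrh
    have h2 : Real.exp 0 ≤ Real.exp E := by rw [Real.exp_zero]; linarith
    exact Real.exp_le_exp.1 h2
  have hE1 : E ≤ 1 / (2 * a) := by
    have h1 : x / a ≤ 1 / (2 * a) := by
      rw [div_le_div_iff₀ ha (by positivity)]
      nlinarith
    have h2 : 14 * ε0 / a ≤ 1 := by rw [div_le_one ha]; exact hε2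
    have h3 : 0 ≤ a * (x / a - 1) ^ 2 := by positivity
    linarith
  have haE : a * E ≤ (x - a) - η ^ 2 + 14 * ε0 := by
    have e3 : a * E = (x - a) - (x - a) ^ 2 + 14 * ε0 := by
      rw [hE]; field_simp
    have h4 : η ^ 2 ≤ (x - a) ^ 2 := pow_le_pow_left₀ hη.le (by linarith) 2
    linarith
  have e2 : (‖h‖ / r) ^ (m + 1) ≤ Real.exp (l * ((x - a) - η ^ 2 + 14 * ε0)) * Real.exp (1 / (2 * a)) := by
    calc (‖h‖ / r) ^ (m + 1) ≤ (Real.exp E) ^ (m + 1) := by gcongr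
      _ = Real.exp (((m + 1 : ℕ) : ℝ) * E) := by rw [← Real.exp_nat_mul]
      _ ≤ Real.exp (l * ((x - a) - η ^ 2 + 14 * ε0) + 1 / (2 * a)) := by
          apply Real.exp_le_exp.2
          calc ((m + 1 : ℕ) : ℝ) * E ≤ (a * l + 1) * E := mul_le_mul_of_nonneg_right hm hE0
            _ = l * (a * E) + E := by ring
            _ ≤ l * ((x - a) - η ^ 2 + 14 * ε0) + 1 / (2 * a) := by gcongr
      _ = _ := Real.exp_add _ _
  have e3 : r / D ≤ 1 / η := by
    rw [div_le_div_iff₀ hD0 hη]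
    have h6 : r * η ≤ 1 * η := mul_le_mul_of_nonneg_right (by linarith) hη.le
    linarith
  calc Real.exp (l * (a + δ)) * (‖h‖ / r) ^ (m + 1) * (r / D) ≤
        Real.exp (l * (a + δ)) *
          (Real.exp (l * ((x - a) - η ^ 2 + 14 * ε0)) * Real.exp (1 / (2 * a))) * (1 / η) := by gcongr
    _ = (Real.exp (1 / (2 * a)) / η) * Real.exp (l * (x - η ^ 2 + (δ + 14 * ε0))) := by
        have e4 : Real.exp (l * (a + δ)) * Real.exp (l * ((x - a) - η ^ 2 + 14 * ε0)) =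
          Real.exp (l * (x - η ^ 2 + (δ + 14 * ε0))) := by
          rw [← Real.exp_add]; congr 1; ring
        rw [← e4]; ring
    _ ≤ Real.exp (l * (η ^ 2 / 4)) * Real.exp (l * (x - 3 / 4 * η ^ 2)) := by
        apply mul_le_mul hls _ (Real.exp_pos _).le (Real.exp_pos _).le
        apply Real.exp_le_exp.2
        apply mul_le_mul_of_nonneg_left _ hl0.le
        linarith
    _ = Real.exp (l * (x - η ^ 2 / 2)) := by
        rw [← Real.exp_add]; congr 1; ring

/-- stage 6: the main part is large -/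
theorem stage6A {a τ η ε0 μ l x : ℝ} {N : ℕ} (ha : 0 < a) (hη : 0 < η) (hτ : 2 * τ = η)
    (hx1 : a + η ≤ x) (hx2 : x ≤ 1 / 2) (hε : 0 < ε0) (hε1 : 16 * ε0 ≤ η) (hμ : 0 < μ)
    (hμ1 : μ ≤ a * ε0) (hμ3 : 2 * μ * (4 / (a / 2)) * Real.sqrt (2 * Real.pi / (a / 2)) ≤ 1 / 4)
    (hl : 4 ≤ a * l) (hN1 : a * l ≤ N + 1) (hN2 : (N : ℝ) ≤ a * l)
    (hNτ : 1 ≤ τ ^ 2 * N) (hlμ : 22 * l ≤ Real.exp (μ * l))
    {C : ℂ} {φ : ℂ → ℂ} {G : ℂ → ℂ} (hC : l ^ (N + 1) * Real.exp (-(μ * l)) ≤ ‖C‖)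
    (hG : ∀ v ∈ Box ε0, G v = C * exp (l * v + φ v))
    (h0 : ∀ v ∈ Box ε0, ‖φ v‖ ≤ μ * l)
    (h1 : ∀ v ∈ Box ε0, HasDerivAt φ (deriv φ v) v)
    (h1b : ∀ v ∈ Box ε0, ‖deriv φ v‖ ≤ μ * l)
    (h2 : ∀ v ∈ Box ε0, HasDerivAt (deriv φ) (deriv (deriv φ) v) v)
    (h3 : ∀ v ∈ Box ε0, ‖deriv (deriv φ) v‖ ≤ μ * l)
    {u : ℂ} (hu1 : |u.re - N / l| ≤ a * ε0) (hu2 : |u.im| ≤ a * ε0) (hu3 : (x - u) ∈ Box ε0)
    (hu4 : u * (l + deriv φ (x - u)) = N) {U : ℝ} (hU : U = (x - 7 * ε0) / u.re) :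
    2 * Real.exp (l * (x - 6 * μ)) ≤
      ‖u ^ (N + 1) / (N.factorial : ℂ) * ∫ t in (0 : ℝ)..U, (t : ℂ) ^ N * G (x - t * u)‖ ∧
    |((x : ℂ) - U * u).im| ≤ ε0 := by
  have hl0 : 0 < l := (mul_pos_iff_of_pos_left ha).1 (by linarith)
  have hτ0 : 0 < τ := by linarith
  have ha2 : a < 1 / 2 := by linarith
  have hεs : 32 * ε0 ≤ 1 := by linarith
  have haε : a * ε0 ≤ ε0 / 2 := by
    have h4 := mul_le_mul_of_nonneg_right ha2.le hε.le
    linarith
  have haε0 : 0 < a * ε0 := by positivity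
  have hNl : (N : ℝ) / l ≤ a := by rw [div_le_iff₀ hl0]; exact hN2
  have hNl' : a - a / 4 ≤ (N : ℝ) / l := by
    rw [le_div_iff₀ hl0]
    have h4 : (a - a / 4) * l = a * l - a * l / 4 := by ring
    linarith
  have hN3 : (3 : ℝ) ≤ N := by linarith
  have hN0 : (0 : ℝ) < N := by linarith
  have hN : 1 ≤ N := by
    have : (1 : ℝ) ≤ N := by linarith
    exact_mod_cast this
  have hsq : 0 < Real.sqrt N := Real.sqrt_pos.2 hN0
  have hμ2 : μ ≤ 1 / 16 := by linarith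
  have hre1 : a / 2 ≤ u.re := by
    have h4 := (abs_le.1 hu1).1
    have h5 : a * ε0 ≤ a * (1 / 4) := mul_le_mul_of_nonneg_left (by linarith) ha.le
    linarith
  have hre2 : u.re ≤ a + ε0 := by
    have := (abs_le.1 hu1).2
    linarith
  have hre0 : 0 < u.re := by linarith
  have hU0 : 0 < U := by
    rw [hU]; apply div_pos _ hre0; linarith
  have hUre : U * u.re = x - 7 * ε0 := by rw [hU]; field_simp
  have hUa : U ≤ 1 / a := by
    rw [hU, div_le_div_iff₀ hre0 ha]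
    have h4 : (x - 7 * ε0) * a ≤ 1 / 2 * a := mul_le_mul_of_nonneg_right (by linarith) ha.le
    linarith
  have hU1 : 1 + 1 / Real.sqrt N ≤ U := by
    have h4 : 1 / Real.sqrt N ≤ τ := by
      rw [div_le_iff₀ hsq]
      have h5 : Real.sqrt (τ ^ 2 * N) = τ * Real.sqrt N := by
        rw [Real.sqrt_mul (by positivity), Real.sqrt_sq hτ0.le]
      rw [← h5]
      exact Real.one_le_sqrt.2 hNτ
    rw [hU, le_div_iff₀ hre0]
    have h6 : 0 < 1 / Real.sqrt N := by positivity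
    have h7 : (1 + 1 / Real.sqrt N) * u.re ≤ (1 + τ) * (a + ε0) :=
      mul_le_mul (by linarith) hre2 hre0.le (by linarith)
    have h8 : τ * (a + ε0) ≤ τ * 1 := mul_le_mul_of_nonneg_left (by linarith) hτ0.le
    have h9 : (1 + τ) * (a + ε0) = a + ε0 + τ * (a + ε0) := by ring
    linarith
  have hUu : ∀ t ∈ Set.Icc 0 U, ((x : ℂ) - t * u) ∈ Box ε0 := by
    intro t ht
    have e1 : ((x : ℂ) - t * u).re = x - t * u.re := by simp
    have e2 : ((x : ℂ) - t * u).im = -(t * u.im) := by simp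
    have h4 : t * u.re ≤ U * u.re := by
      have := ht.2
      gcongr
    have h5 : 0 ≤ t * u.re := mul_nonneg ht.1 hre0.le
    have h6 : |t * u.im| ≤ ε0 := by
      rw [abs_mul, abs_of_nonneg ht.1]
      calc t * |u.im| ≤ (1 / a) * (a * ε0) := by
            apply mul_le_mul (ht.2.trans hUa) hu2 (abs_nonneg _) (by positivity)
        _ = ε0 := by field_simp
    rw [abs_le] at h6
    refine ⟨⟨?_, ?_⟩, ⟨?_, ?_⟩⟩
    · rw [e1]; linarith
    · rw [e1]; linarith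
    · rw [e2]; linarith [h6.2]
    · rw [e2]; linarith [h6.1]
  refine ⟨?_, by
    have := (hUu U ⟨hU0.le, le_rfl⟩).2
    exact abs_le.2 this⟩
  set w : ℂ := x - u with hw
  have hA1 : l * (1 - μ) ≤ ‖(l : ℂ) + deriv φ w‖ := by
    have h4 := h1b w hu3
    have h5 := norm_sub_norm_le (l : ℂ) (-deriv φ w)
    rw [norm_neg, sub_neg_eq_add, norm_real, Real.norm_of_nonneg hl0.le] at h5
    linarith
  have hA2 : ‖(l : ℂ) + deriv φ w‖ ≤ l * (1 + μ) := by
    have h4 := h1b w hu3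
    have h5 := norm_add_le (l : ℂ) (deriv φ w)
    rw [norm_real, Real.norm_of_nonneg hl0.le] at h5
    linarith
  have hA3 : ‖u‖ * ‖(l : ℂ) + deriv φ w‖ = N := by
    rw [← norm_mul, hu4, Complex.norm_natCast]
  have hA0 : 0 < ‖(l : ℂ) + deriv φ w‖ := by
    refine lt_of_lt_of_le ?_ hA1
    apply mul_pos hl0; linarith
  have hun0 : 0 ≤ ‖u‖ := norm_nonneg u
  have hu_up : l * ‖u‖ ≤ N * (1 + 2 * μ) := by
    have h4 : ‖u‖ * (l * (1 - μ)) ≤ N := by
      rw [← hA3]; gcongr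
    have h5 : l * ‖u‖ ≤ l * ‖u‖ * ((1 - μ) * (1 + 2 * μ)) := by
      apply le_mul_of_one_le_right (by positivity)
      have h6 : 0 ≤ μ * (1 - 2 * μ) := mul_nonneg hμ.le (by linarith)
      have h7 : (1 - μ) * (1 + 2 * μ) = 1 + μ * (1 - 2 * μ) := by ring
      linarith
    calc l * ‖u‖ ≤ (‖u‖ * (l * (1 - μ))) * (1 + 2 * μ) := by linarith
      _ ≤ N * (1 + 2 * μ) := by gcongr
  have hu_lo : N * Real.exp (-μ) ≤ ‖u‖ * l := by
    have h4 : (N : ℝ) ≤ ‖u‖ * (l * (1 + μ)) := by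
      rw [← hA3]; gcongr
    have h5 : 1 + μ ≤ Real.exp μ := by
      have := Real.add_one_le_exp μ
      linarith
    have h6 : (N : ℝ) ≤ ‖u‖ * (l * Real.exp μ) := h4.trans (by gcongr)
    calc N * Real.exp (-μ) ≤ (‖u‖ * (l * Real.exp μ)) * Real.exp (-μ) := by gcongr
      _ = ‖u‖ * l * (Real.exp μ * Real.exp (-μ)) := by ring
      _ = ‖u‖ * l := by rw [← Real.exp_add]; simp
  have hu_one : ‖u‖ ≤ 1 := by
    have := Complex.norm_le_abs_re_add_abs_im u
    rw [abs_of_pos hre0] at this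
    linarith
  set R : ℝ → ℂ := fun t => φ (x - t * u) - φ w - deriv φ w * ((x - t * u) - w) with hR
  have hRb : ∀ t ∈ Set.Icc 0 U, ‖R t‖ ≤ 2 * μ * N * (t - 1) ^ 2 := by
    intro t ht
    have h4 := (taylor_two (by positivity) h1 h2 h3 (hUu t ht) hu3).2
    have e1 : (x : ℂ) - t * u - w = ((1 - t : ℝ) : ℂ) * u := by rw [hw]; push_cast; ring
    have e2 : ‖(x : ℂ) - t * u - w‖ ^ 2 = (t - 1) ^ 2 * ‖u‖ ^ 2 := by
      rw [e1, norm_mul, norm_real, mul_pow, Real.norm_eq_abs, sq_abs]; ring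
    rw [e2] at h4
    refine h4.trans ?_
    have h5 : l * ‖u‖ ^ 2 ≤ 2 * N := by
      have h6 : l * ‖u‖ ^ 2 = (l * ‖u‖) * ‖u‖ := by ring
      rw [h6]
      calc (l * ‖u‖) * ‖u‖ ≤ (N * (1 + 2 * μ)) * 1 := by gcongr
        _ ≤ 2 * N := by
            have h8 : (N : ℝ) * (2 * μ) ≤ N * 1 := mul_le_mul_of_nonneg_left (by linarith) hN0.le
            linarith
    calc μ * l * ((t - 1) ^ 2 * ‖u‖ ^ 2) = μ * (t - 1) ^ 2 * (l * ‖u‖ ^ 2) := by ring
      _ ≤ μ * (t - 1) ^ 2 * (2 * N) := by gcongr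
      _ = _ := by ring
  have hRc : ContinuousOn R (Set.Icc 0 U) := by
    intro t ht
    have h4 : ContinuousAt φ ((x : ℂ) - t * u) := (h1 _ (hUu t ht)).continuousAt
    have h5 : ContinuousAt (fun t : ℝ => (x : ℂ) - t * u) t := by fun_prop
    have h6 : ContinuousAt (fun t : ℝ => φ ((x : ℂ) - t * u)) t := ContinuousAt.comp (g := φ) h4 h5
    apply ContinuousAt.continuousWithinAt
    rw [hR]
    exact (h6.sub continuousAt_const).sub (by fun_prop)
  have hμa : 2 * μ ≤ a / 2 / 4 := by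
    have h4 : a * ε0 ≤ a * (1 / 16) := mul_le_mul_of_nonneg_left (by linarith) ha.le
    linarith
  have hsad := saddle_lower (N := N) hN (U := U) (U1 := 1 / a) (δ := 2 * μ) (κ := a / 2) hU1 hUa
    (by field_simp) (by positivity) hμa hμ3 hRc hRb
  have hint : ∫ t in (0 : ℝ)..U, (t : ℂ) ^ N * G (x - t * u) =
      (C * exp (l * w + φ w)) * ∫ t in (0 : ℝ)..U, (wt N t : ℂ) * cexp (R t) := by
    rw [← intervalIntegral.integral_const_mul]
    apply intervalIntegral.integral_congr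
    intro t ht
    rw [Set.uIcc_of_le hU0.le] at ht
    show (t : ℂ) ^ N * G (x - t * u) = (C * exp (l * w + φ w)) * ((wt N t : ℂ) * cexp (R t))
    rw [hG _ (hUu t ht)]
    have e1 : (l : ℂ) * (x - t * u) + φ (x - t * u) = (l * w + φ w) + -(N * ((t : ℂ) - 1)) + R t := by
      rw [hR]
      simp only
      have e2 : (N : ℂ) * ((t : ℂ) - 1) = (t - 1) * (u * (l + deriv φ w)) := by rw [hu4]; ring
      rw [e2, hw]
      ring
    rw [e1, exp_add, exp_add]
    unfold wt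
    push_cast
    ring
  rw [hint, norm_mul, norm_div, norm_pow, Complex.norm_natCast, norm_mul, norm_mul, Complex.norm_exp]
  have hre3 : l * x - N * (1 + 2 * μ) - μ * l ≤ ((l : ℂ) * w + φ w).re := by
    have h4 := (abs_le.1 (abs_re_le_norm (φ w))).1
    have h5 := h0 w hu3
    have e1 : ((l : ℂ) * w + φ w).re = l * (x - u.re) + (φ w).re := by
      rw [hw]; simp
    rw [e1]
    have h6 : l * u.re ≤ l * ‖u‖ := by
      apply mul_le_mul_of_nonneg_left (Complex.re_le_norm u) hl0.le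
    linarith
  have hfac := factorial_le_pow N hN
  have hfac0 : (0 : ℝ) < N.factorial := by positivity
  have hNN : Real.exp (N - 1) ≤ (N : ℝ) ^ (N + 1) / N.factorial := by
    rw [le_div_iff₀ hfac0]
    calc Real.exp (N - 1) * N.factorial ≤
          Real.exp (N - 1) * ((N : ℝ) ^ (N + 1) * Real.exp (1 - N)) := by gcongr
      _ = (N : ℝ) ^ (N + 1) * (Real.exp (N - 1) * Real.exp (1 - N)) := by ring
      _ = (N : ℝ) ^ (N + 1) := by rw [← Real.exp_add]; simp
  have hsqN : Real.sqrt N ≤ N := by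
    rw [Real.sqrt_le_left hN0.le, sq]
    exact le_mul_of_one_le_left hN0.le (by linarith)
  have hal : a * l ≤ 1 / 2 * l := mul_le_mul_of_nonneg_right ha2.le hl0.le
  have h8 : Real.exp 1 * (8 * Real.sqrt N) ≤ Real.exp (μ * l) := by
    have h9 := Real.exp_one_lt_d9
    have h10 : (N : ℝ) ≤ l := by linarith
    calc Real.exp 1 * (8 * Real.sqrt N) ≤ 2.75 * (8 * l) := by
          gcongr
          · linarith
          · linarith
      _ = 22 * l := by ring
      _ ≤ _ := hlμ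
  calc 2 * Real.exp (l * (x - 6 * μ)) ≤
        Real.exp (l * x - 4 * (μ * l) - 1) * (1 / 4 / Real.sqrt N) := by
        have e1 : Real.exp (l * x - 4 * (μ * l) - 1) =
            Real.exp (l * (x - 6 * μ)) * Real.exp (μ * l) * Real.exp (μ * l) * Real.exp (-1) := by
          rw [← Real.exp_add, ← Real.exp_add, ← Real.exp_add]; congr 1; ring
        rw [e1, div_div, mul_one_div, le_div_iff₀ (by positivity)]
        have h11 : 1 ≤ Real.exp (μ * l) := Real.one_le_exp (by positivity)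
        have h12 : 8 * Real.sqrt N ≤ Real.exp (μ * l) * Real.exp (-1) := by
          calc 8 * Real.sqrt N = (Real.exp 1 * (8 * Real.sqrt N)) * Real.exp (-1) := by
                have : Real.exp 1 * Real.exp (-1) = 1 := by rw [← Real.exp_add]; simp
                linear_combination (-(8 * Real.sqrt N)) * this
            _ ≤ _ := by gcongr
        calc 2 * Real.exp (l * (x - 6 * μ)) * (4 * Real.sqrt N) =
              Real.exp (l * (x - 6 * μ)) * (8 * Real.sqrt N) := by ring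
          _ ≤ Real.exp (l * (x - 6 * μ)) * (Real.exp (μ * l) * Real.exp (-1)) := by gcongr
          _ ≤ Real.exp (l * (x - 6 * μ)) * (Real.exp (μ * l) * Real.exp (-1)) * Real.exp (μ * l) := by
              apply le_mul_of_one_le_right (by positivity) h11
          _ = _ := by ring
    _ ≤ (Real.exp (N - 1) * Real.exp (-(μ * (N + 1))) * Real.exp (-(μ * l)) *
          Real.exp (l * x - N * (1 + 2 * μ) - μ * l)) * (1 / 4 / Real.sqrt N) := by
        apply mul_le_mul_of_nonneg_right _ (by positivity)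
        rw [← Real.exp_add, ← Real.exp_add, ← Real.exp_add]
        apply Real.exp_le_exp.2
        have h13 : μ * (3 * N + 1) ≤ μ * (2 * l) := by
          apply mul_le_mul_of_nonneg_left _ hμ.le
          linarith
        linarith
    _ ≤ (((N : ℝ) ^ (N + 1) / N.factorial) * Real.exp (-(μ * (N + 1))) * Real.exp (-(μ * l)) *
          Real.exp (((l : ℂ) * w + φ w).re)) * (1 / 4 / Real.sqrt N) := by gcongr
    _ = ((N * Real.exp (-μ)) ^ (N + 1) / N.factorial) * (Real.exp (-(μ * l)) *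
          Real.exp (((l : ℂ) * w + φ w).re)) * (1 / 4 / Real.sqrt N) := by
        have e2 : Real.exp (-(μ * (N + 1))) = Real.exp (-μ) ^ (N + 1) := by
          rw [← Real.exp_nat_mul]; congr 1; push_cast; ring
        rw [e2, mul_pow]; ring
    _ ≤ ((‖u‖ * l) ^ (N + 1) / N.factorial) * (Real.exp (-(μ * l)) *
          Real.exp (((l : ℂ) * w + φ w).re)) * (1 / 4 / Real.sqrt N) := by gcongr
    _ = (‖u‖ ^ (N + 1) / N.factorial) * ((l ^ (N + 1) * Real.exp (-(μ * l))) *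
          Real.exp (((l : ℂ) * w + φ w).re) * (1 / 4 / Real.sqrt N)) := by
        rw [mul_pow]; ring
    _ ≤ (‖u‖ ^ (N + 1) / N.factorial) * (‖C‖ *
          Real.exp (((l : ℂ) * w + φ w).re) * ‖∫ t in (0 : ℝ)..U, (wt N t : ℂ) * cexp (R t)‖) := by
        gcongr

/-- the case `η ≤ 1/2` -/
theorem absA_core {a : ℝ} (ha : 0 < a) (ha2 : a < 1 / 2) {η : ℝ} (hη : 0 < η) (hη2 : η ≤ 1 / 2)
    {ε : ℝ} (hε : 0 < ε) : ∃ δ L : ℝ, 0 < δ ∧
  ∀ l : ℝ, L ≤ l → ∀ n : ℕ, a * l ≤ n → n ≤ a * l + 1 →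
  ∀ f : ℂ → ℂ, Differentiable ℂ f →
  (∀ w : ℂ, ‖w‖ ≤ 8 → ‖f w‖ ≤ Real.exp (l * (max |w.re| a + δ))) →
  (∀ w : ℂ, ‖w‖ ≤ 8 → 1 / 2 + δ ≤ w.re → Real.exp (l * (w.re - δ)) ≤ ‖f w‖) →
  (∀ w : ℂ, ‖w‖ ≤ 6 → 0 < w.re → iteratedDeriv n f w ≠ 0) →
  ∀ x : ℝ, a + η ≤ x → x ≤ 1 / 2 → Real.exp (l * (x - ε)) ≤ ‖f x‖ := by
  set ε0 : ℝ := a * η ^ 2 / 200 with hε0d
  have hε0 : 0 < ε0 := by positivity
  have hη2' : η ^ 2 ≤ η / 2 := by nlinarith
  have haη : a * η ^ 2 ≤ 1 / 2 * η ^ 2 := mul_le_mul_of_nonneg_right ha2.le (by positivity)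
  have hη4 : η ^ 2 ≤ 1 / 4 := by linarith
  have haη' : a * η ^ 2 ≤ a * 1 := mul_le_mul_of_nonneg_left (by linarith) ha.le
  have hε1 : 16 * ε0 ≤ η := by rw [hε0d]; linarith
  have hε2 : 14 * ε0 ≤ a := by rw [hε0d]; linarith
  have hε3 : 14 * ε0 ≤ η ^ 2 / 8 := by
    rw [hε0d]
    have : 0 ≤ η ^ 2 := by positivity
    linarith
  have hε4 : ε0 ≤ 1 / 100 := by rw [hε0d]; linarith
  set κ' : ℝ := (4 / (a / 2)) * Real.sqrt (2 * Real.pi / (a / 2)) with hκ'
  have hpi := Real.pi_pos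
  have hκ'0 : 0 < κ' := by
    rw [hκ']
    apply mul_pos (by positivity)
    apply Real.sqrt_pos.2
    positivity
  set μ : ℝ := min (min (ε / 6) (a * ε0)) (min (η ^ 2 / 12) (1 / (8 * κ'))) with hμd
  have hμ : 0 < μ := by positivity
  have m1 : μ ≤ ε / 6 := (min_le_left _ _).trans (min_le_left _ _)
  have m2 : μ ≤ a * ε0 := (min_le_left _ _).trans (min_le_right _ _)
  have m3 : μ ≤ η ^ 2 / 12 := (min_le_right _ _).trans (min_le_left _ _)
  have m4 : μ ≤ 1 / (8 * κ') := (min_le_right _ _).trans (min_le_right _ _)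
  have m4' : 2 * μ * (4 / (a / 2)) * Real.sqrt (2 * Real.pi / (a / 2)) ≤ 1 / 4 := by
    have e : 2 * μ * (4 / (a / 2)) * Real.sqrt (2 * Real.pi / (a / 2)) = 2 * μ * κ' := by
      rw [hκ']; ring
    rw [e]
    rw [le_div_iff₀ (by positivity)] at m4
    linarith
  obtain ⟨δ0, hδ0, h3⟩ := stage3 ha ha2 hε0 hε4 hμ
  have hδ : 0 < min δ0 (η ^ 2 / 8) := by positivity
  obtain ⟨L0, h3⟩ := h3 (min δ0 (η ^ 2 / 8)) hδ (min_le_left _ _)
  have hδ1 : min δ0 (η ^ 2 / 8) + 14 * ε0 ≤ η ^ 2 / 4 := by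
    have := min_le_right δ0 (η ^ 2 / 8)
    linarith
  set δ : ℝ := min δ0 (η ^ 2 / 8) with hδd
  set τ : ℝ := η / 2 with hτd
  have hτ0 : 0 < τ := by positivity
  have hev : ∀ᶠ l : ℝ in atTop, 4 ≤ a * l ∧ 1 ≤ τ ^ 2 * (a * l - 1) ∧ 22 * l ≤ Real.exp (μ * l) ∧
      Real.exp (1 / (2 * a)) / η ≤ Real.exp (l * (η ^ 2 / 4)) := by
    have t1 : Tendsto (fun l : ℝ => a * l) atTop atTop := tendsto_id.const_mul_atTop ha
    have t2 : Tendsto (fun l : ℝ => l * (η ^ 2 / 4)) atTop atTop :=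
      tendsto_id.atTop_mul_const (by positivity)
    have t3 := Real.tendsto_exp_atTop.comp t2
    filter_upwards [t1.eventually_ge_atTop 4, t1.eventually_ge_atTop (1 / τ ^ 2 + 1),
      eventually_ge_atTop (44 / μ ^ 2), eventually_ge_atTop 0,
      t3.eventually_ge_atTop (Real.exp (1 / (2 * a)) / η)] with l g1 g2 g3 g4 g5
    refine ⟨g1, ?_, ?_, g5⟩
    · have g6 : 1 / τ ^ 2 ≤ a * l - 1 := by linarith
      rw [div_le_iff₀ (by positivity)] at g6
      linarith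
    · rw [div_le_iff₀ (by positivity)] at g3
      have g7 := Real.quadratic_le_exp_of_nonneg (x := μ * l) (by positivity)
      have g8 : 0 ≤ μ * l := by positivity
      nlinarith
  obtain ⟨L1, hL1⟩ := eventually_atTop.1 hev
  refine ⟨δ, max L0 L1, hδ, ?_⟩
  intro l hl n hn hn' f hf A1 A3 A4 x hx1 hx2
  obtain ⟨g1, g2, g3, g4⟩ := hL1 l ((le_max_right _ _).trans hl)
  have hl0 : 0 < l := (mul_pos_iff_of_pos_left ha).1 (by linarith)
  obtain ⟨C, φ, hC, H⟩ := h3 l ((le_max_left _ _).trans hl) n hn hn' f hf (fun w hw => by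
    refine (A1 w hw).trans (Real.exp_le_exp.2 ?_)
    apply mul_le_mul_of_nonneg_left _ hl0.le
    have := max_le_max (le_refl |w.re|) ha2.le
    linarith) A3 A4
  obtain ⟨N, rfl⟩ : ∃ N, n = N + 1 := by
    have h1 : (0 : ℝ) < n := by linarith
    have h2 : 0 < n := by exact_mod_cast h1
    exact ⟨n - 1, by omega⟩
  have hn2 : a * l ≤ (N : ℝ) + 1 := by push_cast at hn; exact hn
  have hn2' : (N : ℝ) ≤ a * l := by push_cast at hn'; linarith
  have HB : ∀ v ∈ Box ε0, iteratedDeriv (N + 1) f v = C * exp (l * v + φ v) ∧ ‖φ v‖ ≤ μ * l ∧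
        HasDerivAt φ (deriv φ v) v ∧ ‖deriv φ v‖ ≤ μ * l ∧
        HasDerivAt (deriv φ) (deriv (deriv φ) v) v ∧ ‖deriv (deriv φ) v‖ ≤ μ * l := by
    intro v hv
    exact H v hv.1.1 hv.1.2 (abs_le.2 hv.2)
  obtain ⟨u, hu1, hu2, hu3, hu4⟩ := stage4A ha hη hx1 hx2 hε0 hε1 hμ m2 g1 hn2 hn2'
    (fun v hv => (HB v hv).2.2.1) (fun v hv => (HB v hv).2.2.2.1)
    (fun v hv => (HB v hv).2.2.2.2.1) (fun v hv => (HB v hv).2.2.2.2.2)
  obtain ⟨s6, s6'⟩ := stage6A (τ := τ) (G := iteratedDeriv (N + 1) f) ha hη (by rw [hτd]; ring) hx1 hx2 hε0 hε1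
    hμ m2 m4' g1 hn2 hn2'
    (by
      refine g2.trans ?_
      gcongr
      linarith) g3 hC (fun v hv => (HB v hv).1) (fun v hv => (HB v hv).2.1)
    (fun v hv => (HB v hv).2.2.1) (fun v hv => (HB v hv).2.2.2.1)
    (fun v hv => (HB v hv).2.2.2.2.1) (fun v hv => (HB v hv).2.2.2.2.2) hu1 hu2 hu3 hu4 rfl
  set U : ℝ := (x - 7 * ε0) / u.re with hU
  have hre1 : 0 < u.re := by
    have h1 := (abs_le.1 hu1).1
    have h2 : a - a / 4 ≤ (N : ℝ) / l := by
      rw [le_div_iff₀ hl0]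
      nlinarith
    have h3 : a * ε0 ≤ a * (1 / 4) := by
      apply mul_le_mul_of_nonneg_left _ ha.le; linarith
    linarith
  have hUre : U * u.re = x - 7 * ε0 := by rw [hU]; field_simp
  have s5 := stage5A (m := N) (x0 := (x : ℂ) - U * u) (h := U * u) ha hη hx1 hx2 hε0 hε1 hε2 hδ1 g1 hn' g4
    hf A1 (by ring) (by
      simp only [sub_re, ofReal_re, mul_re, ofReal_im, zero_mul, sub_zero]
      rw [hUre]; ring) s6'
  have hT := taylor_seg hf x u U N
  rw [hT]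
  set T : ℂ := ∑ k ∈ Finset.range (N + 1), ((U : ℂ) * u) ^ k / (k.factorial : ℂ) *
    iteratedDeriv k f (x - U * u) with hTd
  set M : ℂ := u ^ (N + 1) / (N.factorial : ℂ) *
    ∫ t in (0 : ℝ)..U, (t : ℂ) ^ N * iteratedDeriv (N + 1) f (x - t * u) with hMd
  have h7 : ‖M‖ - ‖T‖ ≤ ‖T + M‖ := by
    have := norm_sub_le_norm_add M T
    rw [add_comm T M]
    exact this
  have h8 : Real.exp (l * (x - η ^ 2 / 2)) ≤ Real.exp (l * (x - 6 * μ)) := by
    apply Real.exp_le_exp.2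
    apply mul_le_mul_of_nonneg_left _ hl0.le
    linarith
  have h9 : Real.exp (l * (x - ε)) ≤ Real.exp (l * (x - 6 * μ)) := by
    apply Real.exp_le_exp.2
    apply mul_le_mul_of_nonneg_left _ hl0.le
    linarith
  linarith

theorem t_absA : S_absA := by
  intro a ha ha2 η hη ε hε
  obtain ⟨δ, L, hδ, h⟩ := absA_core ha ha2 (η := min η (1 / 2)) (by positivity) (min_le_right _ _) hε
  refine ⟨δ, L, hδ, ?_⟩
  intro l hl n hn hn' f hf A1 A3 A4 x hx1 hx2
  exact h l hl n hn hn' f hf A1 A3 A4 x (by have := min_le_left η (1 / 2); linarith) hx2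

end Pool.Agent.J4H30.LB
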